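import Pool.Agent.MP_d62b8f_an.Adjoint
import Pool.Agent.MP_d62b8f_an.Iso

namespace Pool.Agent.Results.MP_d62b8f_an.NotIsomorphic

open Pool.Agent.MP_d62b8f_an

/-- For distinct dimensions `m ≠ n` there is no bounded linear bijection from the Lipschitz-free
space over Euclidean `ℝ^m` onto the Lipschitz-free space over Euclidean `ℝ^n`. -/
theorem result (m n : ℕ) (h : m ≠ n) :
    ¬Isomorphic (Free (EuclideanSpace ℝ (Fin m))) (Free (EuclideanSpace ℝ (Fin n))) := by
  rintro ⟨T, hT⟩
  haveI : CompleteSpace (Free (EuclideanSpace ℝ (Fin m))) :=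
    (Submodule.isClosed_topologicalClosure _).completeSpace_coe
  haveI : CompleteSpace (Free (EuclideanSpace ℝ (Fin n))) :=
    (Submodule.isClosed_topologicalClosure _).completeSpace_coe
  let e := ContinuousLinearEquiv.ofBijective T (LinearMap.ker_eq_bot.2 hT.1)
    (LinearMap.range_eq_top.2 hT.2)
  rcases lt_or_gt_of_ne h with h | h
  · exact not_complemented h e.symm.toContinuousLinearMap e.toContinuousLinearMap
      e.apply_symm_apply
  · exact not_complemented h e.toContinuousLinearMap e.symm.toContinuousLinearMap
      e.symm_apply_apply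

end Pool.Agent.Results.MP_d62b8f_an.NotIsomorphic
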